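import Pool.Agent.MP_75da70_an.H8.IDefs

/-
Atoms of finitely additive kernel-valued set functions.
-/

namespace Pool.Agent.MP_75da70_an.H8

open Filter Topology Set H7

set_option linter.unusedSectionVars false

open scoped ComplexOrder in
theorem I2_swap {I J : Type} {M : I → J → ℂ} {C : ℝ} (h : G2 M C) : G2 (fun j i => M i j) C := by
  obtain ⟨K, hK, hd, hM⟩ := h
  exact ⟨K.transpose.submatrix Sum.swap Sum.swap, hK.transpose.submatrix _, fun z => hd _,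
    fun j i => hM i j⟩

theorem I2_extract {Λ I J : Type} (Φ : Λ → I → J → ℂ) {C : ℝ}
    (hΦ : ∀ (s : Finset Λ) (θ : Λ → ℂ), (∀ c, ‖θ c‖ ≤ 1) →
      G2 (fun i j => ∑ c ∈ s, θ c * Φ c i j) C)
    {lab : I → J → Λ} (hlab : OneSide lab) : G2 (fun i j => Φ (lab i j) i j) C := by
  classical
  have key : ∀ S : Finset Λ,
      G2 (fun i j => if lab i j ∈ S then Φ (lab i j) i j else 0) C := by
    intro S
    let e : (S → ℤˣ) → Λ → ℂ := fun ε c => if h : c ∈ S then ((ε ⟨c, h⟩ : ℤ) : ℂ) else 0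
    have he : ∀ ε c, ‖e ε c‖ ≤ 1 := fun ε c => by
      simp only [e]; split_ifs
      · exact (norm_sign _).le
      · simp
    let N : ℝ := Fintype.card (S → ℤˣ)
    have hN : 0 < N := by simp only [N]; exact_mod_cast Fintype.card_pos
    have h1 : ∀ ε : S → ℤˣ,
        G2 (fun i j => e ε (lab i j) * ∑ c ∈ S, e ε c * Φ c i j) C := fun ε => by
      have := ((hΦ S (e ε) (he ε)).mul_oneSide (hlab.map (e ε)) zero_le_one
        (fun i j => he _ _))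
      exact this.mono (by rw [one_mul])
    have h2 := (G2.sum Finset.univ (fun ε _ => h1 ε)).smul_real (inv_pos.mpr hN).le
    have h3 : N⁻¹ * ∑ _ε : S → ℤˣ, C = C := by
      rw [Finset.sum_const, Finset.card_univ, nsmul_eq_mul]
      field_simp
      rfl
    rw [h3] at h2
    refine h2.congr fun i j => ?_
    simp only [Finset.mul_sum]
    rw [Finset.sum_comm]
    have hNc : (N : ℂ) ≠ 0 := by exact_mod_cast hN.ne'
    split_ifs with hl
    · rw [Finset.sum_eq_single (lab i j)]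
      · simp only [e, dif_pos hl, ← mul_assoc]
        rw [← Finset.sum_mul]
        simp only [mul_assoc]
        rw [← Finset.mul_sum, sum_sign_mul, if_pos rfl]
        have : ((Fintype.card (S → ℤˣ) : ℕ) : ℂ) = (N : ℂ) := by simp [N]
        rw [this]; push_cast; field_simp
      · intro c hc hne
        simp only [e, dif_pos hl, dif_pos hc, ← mul_assoc]
        rw [← Finset.sum_mul]
        simp only [mul_assoc]
        rw [← Finset.mul_sum, sum_sign_mul, if_neg (by simpa using hne.symm)]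
        simp
      · intro h; exact absurd hl h
    · simp [e, dif_neg hl]
  refine G2.of_tendsto (atTop : Filter (Finset Λ)) (Eventually.of_forall key) tendsto_const_nhds
    fun i j => ?_
  refine tendsto_const_nhds.congr' ?_
  filter_upwards [eventually_ge_atTop ({lab i j} : Finset Λ)] with S hS
  rw [if_pos (hS (Finset.mem_singleton_self _))]

section Basic

variable {Ω : Type} [TopologicalSpace Ω]

theorem I2_cnb_ev {γ : Ω} {S : Set Ω} (hS : S ∈ 𝓝 γ) :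
    ∀ᶠ W in cnb γ, IsClopen W ∧ γ ∈ W ∧ W ⊆ S := by
  rw [cnb, eventually_inf_principal]
  filter_upwards [eventually_smallSets_subset.2 hS] with W hW hW'
  exact ⟨hW'.1, hW'.2, hW⟩

theorem PhiData.swap' {q : Ω} {φ : Set Ω → Ω → Ω → ℂ} {C : ℝ} (h : PhiData q φ C) :
    PhiData q (fun O u v => φ O v u) C where
  add O O' h1 h2 h3 h4 h5 u v := h.add O O' h1 h2 h3 h4 h5 v u
  g2 Λ s O θ h1 h2 h3 := I2_swap (h.g2 Λ s O θ h1 h2 h3)
  cont1 := h.cont2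
  cont2 := h.cont1
  van1 := h.van2
  van2 := h.van1

theorem PhiData.g2_one {q : Ω} {φ : Set Ω → Ω → Ω → ℂ} {C : ℝ} (h : PhiData q φ C)
    {O : Set Ω} (hO : IsClopen O) (hq : q ∉ O) : G2 (φ O) C :=
  (h.g2 Unit Finset.univ (fun _ => O) (fun _ => 1) (fun _ => ⟨hO, hq⟩) Subsingleton.pairwise
    (by simp)).congr fun u v => by simp

theorem PhiData.empty {q : Ω} {φ : Set Ω → Ω → Ω → ℂ} {C : ℝ} (h : PhiData q φ C) (u v : Ω) :
    φ ∅ u v = 0 := by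
  have := h.add ∅ ∅ isClopen_empty isClopen_empty (notMem_empty _) (notMem_empty _)
    (by simp) u v
  rw [union_empty] at this
  linear_combination -this

theorem PhiData.diff {q : Ω} {φ : Set Ω → Ω → Ω → ℂ} {C : ℝ} (h : PhiData q φ C)
    {W W' : Set Ω} (hW : IsClopen W) (hW' : IsClopen W') (hq : q ∉ W) (hs : W' ⊆ W) (u v : Ω) :
    φ (W \ W') u v = φ W u v - φ W' u v := by
  have := h.add (W \ W') W' (hW.diff hW') hW' (fun h => hq h.1) (fun h => hq (hs h))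
    disjoint_sdiff_left u v
  rw [sdiff_union_of_subset hs] at this
  linear_combination -this

theorem PhiData.g2_lab' {q : Ω} {φ : Set Ω → Ω → Ω → ℂ} {C : ℝ} (h : PhiData q φ C)
    {I J Λ₁ Λ₂ : Type} (O : Λ₁ × Λ₂ → Set Ω) (hO : ∀ c, IsClopen (O c) ∧ q ∉ O c)
    (hd : Pairwise fun c c' => Disjoint (O c) (O c')) (l₁ : I → Λ₁) (l₂ : J → Λ₂)
    (u : I → Ω) (v : J → Ω) : G2 (fun i j => φ (O (l₁ i, l₂ j)) (u i) (v j)) C := by
  refine I2_extract (fun b i j => φ (O (l₁ i, b)) (u i) (v j)) (fun s₂ θ₂ hθ₂ => ?_)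
    (OneSide.col l₂)
  refine I2_extract (fun a i j => ∑ b ∈ s₂, θ₂ b * φ (O (a, b)) (u i) (v j))
    (fun s₁ θ₁ hθ₁ => ?_) (OneSide.row l₁)
  refine ((h.g2 _ (s₁ ×ˢ s₂) O (fun c => θ₁ c.1 * θ₂ c.2) hO hd fun c => ?_).comp u v).congr
    fun i j => ?_
  · rw [norm_mul]
    exact mul_le_one₀ (hθ₁ _) (norm_nonneg _) (hθ₂ _)
  · rw [Finset.sum_product]
    simp only [Finset.mul_sum, mul_assoc]

theorem PhiData.g2_row {q : Ω} {φ : Set Ω → Ω → Ω → ℂ} {C : ℝ} (h : PhiData q φ C)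
    {I J : Type} (O : I → Set Ω) (hO : ∀ c, IsClopen (O c) ∧ q ∉ O c)
    (hd : Pairwise fun c c' => Disjoint (O c) (O c')) (u : I → Ω) (v : J → Ω) :
    G2 (fun i j => φ (O i) (u i) (v j)) C :=
  h.g2_lab' (Λ₂ := Unit) (fun c => O c.1) (fun c => hO c.1)
    (fun c c' hne => hd fun he => hne (Prod.ext he rfl)) id (fun _ => ()) u v

end Basic

variable {Ω : Type} [TopologicalSpace Ω] [CompactSpace Ω] [T2Space Ω]
  [TotallyDisconnectedSpace Ω]

instance cnb_neBot (γ : Ω) : (cnb γ).NeBot := by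
  rw [cnb, inf_principal_neBot_iff]
  intro U hU
  obtain ⟨t, ht, htU⟩ := (hasBasis_smallSets (𝓝 γ)).mem_iff.1 hU
  obtain ⟨W, hW, hWt⟩ := (nhds_basis_clopen γ).mem_iff.1 ht
  exact ⟨W, htU hWt, hW.2, hW.1⟩

theorem PhiData.swap {q : Ω} {φ : Set Ω → Ω → Ω → ℂ} {C : ℝ} (h : PhiData q φ C) :
    PhiData q (fun O u v => φ O v u) C := h.swap'

theorem PhiData.g2_lab {q : Ω} {φ : Set Ω → Ω → Ω → ℂ} {C : ℝ} (h : PhiData q φ C)
    {I J Λ₁ Λ₂ : Type} (O : Λ₁ × Λ₂ → Set Ω) (hO : ∀ c, IsClopen (O c) ∧ q ∉ O c)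
    (hd : Pairwise fun c c' => Disjoint (O c) (O c')) (l₁ : I → Λ₁) (l₂ : J → Λ₂)
    (u : I → Ω) (v : J → Ω) : G2 (fun i j => φ (O (l₁ i, l₂ j)) (u i) (v j)) C :=
  h.g2_lab' O hO hd l₁ l₂ u v

omit [CompactSpace Ω] [TotallyDisconnectedSpace Ω] in
theorem I2_ev {q γ : Ω} {𝒜 : Ultrafilter (Set Ω)} (h𝒜 : ↑𝒜 ≤ cnb γ) (hq : γ ≠ q) {S : Set Ω}
    (hS : S ∈ 𝓝 γ) : ∀ᶠ W in (𝒜 : Filter (Set Ω)), IsClopen W ∧ γ ∈ W ∧ W ⊆ S ∧ q ∉ W := by
  filter_upwards [h𝒜 (I2_cnb_ev (inter_mem hS (compl_singleton_mem_nhds hq)))] with W hW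
  exact ⟨hW.1, hW.2.1, fun x hx => (hW.2.2 hx).1, fun hx => (hW.2.2 hx).2 rfl⟩

theorem PhiData.exists_atom {q : Ω} {φ : Set Ω → Ω → Ω → ℂ} {C : ℝ} (h : PhiData q φ C)
    (𝒜 : Ω → Ultrafilter (Set Ω)) (h𝒜 : ∀ γ, ↑(𝒜 γ) ≤ cnb γ) {Γ : Set Ω} (hq : q ∉ Γ) :
    ∃ N, IsAtom φ 𝒜 Γ N := by
  have : ∀ γ u v, ∃ c, γ ∈ Γ → Tendsto (fun W => φ W u v) (𝒜 γ) (𝓝 c) := by
    intro γ u v
    by_cases hγ : γ ∈ Γ
    · obtain ⟨c, hc⟩ := exists_ulim (𝒜 γ) (fun W => φ W u v) (B := C) (by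
        filter_upwards [I2_ev (h𝒜 γ) (q := q) (fun e => hq (e ▸ hγ)) univ_mem] with W hW
        exact (h.g2_one hW.1 hW.2.2.2).norm_le u v)
      exact ⟨c, fun _ => hc⟩
    · exact ⟨0, fun h => absurd h hγ⟩
  choose N hN using this
  exact ⟨N, fun γ hγ u v => hN γ u v hγ⟩

theorem PhiData.atom_g2 {q : Ω} {φ : Set Ω → Ω → Ω → ℂ} {C : ℝ} (h : PhiData q φ C)
    {𝒜 : Ω → Ultrafilter (Set Ω)} (h𝒜 : ∀ γ, ↑(𝒜 γ) ≤ cnb γ) {Γ : Set Ω} (hq : q ∉ Γ)
    {N : Ω → Ω → Ω → ℂ} (hN : IsAtom φ 𝒜 Γ N) :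
    (∀ γ ∈ Γ, G2 (N γ) C) ∧ ∀ uu : Ω → Ω, G2 (fun (γ : Γ) v => N γ (uu γ) v) C := by
  classical
  refine ⟨fun γ hγ => ?_, fun uu => ?_⟩
  · refine G2.of_tendsto (𝒜 γ : Filter (Set Ω)) (Ms := φ) ?_ tendsto_const_nhds (hN γ hγ)
    filter_upwards [I2_ev (h𝒜 γ) (q := q) (fun e => hq (e ▸ hγ)) univ_mem] with W hW
    exact h.g2_one hW.1 hW.2.2.2
  have key : ∀ F : Finset Γ, G2 (fun (γ : Γ) v => if γ ∈ F then N γ (uu γ) v else 0) C := by
    intro F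
    obtain ⟨B, hB, hBd⟩ := (F.finite_toSet.image Subtype.val).t2_separation
    refine G2.of_tendsto (Filter.pi fun γ : Γ => (𝒜 γ : Filter (Set Ω)))
      (Ms := fun W (γ : Γ) v => φ (if γ ∈ F then W γ else ∅) (uu γ) v) ?_ tendsto_const_nhds
      fun γ v => ?_
    · have : ∀ᶠ W in Filter.pi fun γ : Γ => (𝒜 γ : Filter (Set Ω)), ∀ γ ∈ F,
          IsClopen (W γ) ∧ γ.1 ∈ W γ ∧ W γ ⊆ B γ ∧ q ∉ W γ := by
        rw [eventually_all_finset]
        intro γ _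
        exact (tendsto_eval_pi (fun γ : Γ => (𝒜 γ : Filter (Set Ω))) γ).eventually
          (I2_ev (h𝒜 γ) (q := q) (fun e => hq (e ▸ γ.2)) ((hB γ).2.mem_nhds (hB γ).1))
      filter_upwards [this] with W hW
      refine h.g2_row (fun γ : Γ => if γ ∈ F then W γ else ∅) (fun γ => ?_) (fun γ γ' hne => ?_)
        (fun γ => uu γ) id
      · split_ifs with hγ
        · exact ⟨(hW γ hγ).1, (hW γ hγ).2.2.2⟩
        · exact ⟨isClopen_empty, notMem_empty _⟩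
      · by_cases hγ : γ ∈ F
        · by_cases hγ' : γ' ∈ F
          · simp only [if_pos hγ, if_pos hγ']
            exact (hBd ⟨γ, hγ, rfl⟩ ⟨γ', hγ', rfl⟩ fun e => hne (Subtype.ext e)).mono
              (hW γ hγ).2.2.1 (hW γ' hγ').2.2.1
          · simp [if_neg hγ']
        · simp [if_neg hγ]
    · by_cases hγ : γ ∈ F
      · simp only [if_pos hγ]
        exact (hN γ γ.2 _ v).comp (tendsto_eval_pi (fun γ : Γ => (𝒜 γ : Filter (Set Ω))) γ)
      · simp only [if_neg hγ, h.empty]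
        exact tendsto_const_nhds
  refine G2.of_tendsto (atTop : Filter (Finset Γ)) (Eventually.of_forall key) tendsto_const_nhds
    fun γ v => ?_
  refine tendsto_const_nhds.congr' ?_
  filter_upwards [eventually_ge_atTop ({γ} : Finset Γ)] with S hS
  rw [if_pos (hS (Finset.mem_singleton_self _))]

theorem I2_near {ι : Type*} {F : Filter ι} {f : ι → ℂ} {c : ℂ} (hf : Tendsto f F (𝓝 c)) {η : ℝ}
    (hη : 0 < η) : ∀ᶠ x in F, ‖f x - c‖ ≤ η := by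
  filter_upwards [Metric.tendsto_nhds.1 hf η hη] with x hx
  rw [dist_eq_norm] at hx
  exact hx.le

theorem PhiData.atom_identity {q : Ω} {φ : Set Ω → Ω → Ω → ℂ} {C : ℝ} (h : PhiData q φ C)
    {𝒜 : Ω → Ultrafilter (Set Ω)} (h𝒜 : ∀ γ, ↑(𝒜 γ) ≤ cnb γ) {Γ : Set Ω} (hq : q ∉ Γ)
    {N : Ω → Ω → Ω → ℂ} (hN : IsAtom φ 𝒜 Γ N) {γ : Ω} (hγ : γ ∈ Γ)
    (𝒰 𝒱 : Ultrafilter Ω) (h𝒰 : ↑𝒰 ≤ 𝓝 γ) (h𝒱 : ↑𝒱 ≤ 𝓝 γ) (β : Ω → ℂ) (α : ℂ)
    (hβ : ∀ v, Tendsto (fun u => N γ u v) 𝒰 (𝓝 (β v)))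
    (hα : Tendsto (fun u => N γ u γ) 𝒰 (𝓝 α)) :
    Tendsto (fun v => N γ γ v - β v) 𝒱 (𝓝 (N γ γ γ - α)) := by
  classical
  have hγq : γ ≠ q := fun e => hq (e ▸ hγ)
  have hNb : ∀ u v, ‖N γ u v‖ ≤ C := ((h.atom_g2 h𝒜 hq hN).1 γ hγ).norm_le
  have hβb : ∀ v, ‖β v‖ ≤ C := fun v =>
    le_of_tendsto (hβ v).norm (Eventually.of_forall fun u => hNb u v)
  obtain ⟨L, hL⟩ := exists_ulim 𝒱 (fun v => N γ γ v - β v) (B := C + C)
    (Eventually.of_forall fun v => (norm_sub_le _ _).trans (add_le_add (hNb _ _) (hβb _)))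
  suffices hc : L = N γ γ γ - α by rwa [← hc]
  let D : Set Ω → Ω → Ω → ℂ := fun W u v => φ W u v - φ W u γ - φ W γ v + φ W γ γ
  let E : Ω → Ω → ℂ := fun u v => N γ u v - N γ u γ - N γ γ v + N γ γ γ
  let g : Ω → ℂ := fun v => β v - α - N γ γ v + N γ γ γ
  let c : ℂ := N γ γ γ - α - L
  have hDE : ∀ u v, Tendsto (fun W => D W u v) (𝒜 γ) (𝓝 (E u v)) := fun u v =>
    (((hN γ hγ u v).sub (hN γ hγ u γ)).sub (hN γ hγ γ v)).add (hN γ hγ γ γ)
  have hEg : ∀ v, Tendsto (fun u => E u v) 𝒰 (𝓝 (g v)) := fun v =>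
    (((hβ v).sub hα).sub_const _).add_const _
  have hgc : Tendsto g 𝒱 (𝓝 c) :=
    (hL.const_sub (N γ γ γ - α)).congr fun v => by simp only [g]; ring
  have hD1 : ∀ W, IsClopen W → q ∉ W → ∀ v, Tendsto (fun u => D W u v) 𝒰 (𝓝 0) := by
    intro W h1 h2 v
    have : Continuous fun u => D W u v :=
      (((h.cont1 W h1 h2 v).sub (h.cont1 W h1 h2 γ)).sub continuous_const).add continuous_const
    have h3 := (this.tendsto γ).mono_left h𝒰
    have e : D W γ v = 0 := by simp only [D]; ring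
    rwa [e] at h3
  have hD2 : ∀ W, IsClopen W → q ∉ W → ∀ u, Tendsto (fun v => D W u v) 𝒱 (𝓝 0) := by
    intro W h1 h2 u
    have : Continuous fun v => D W u v :=
      (((h.cont2 W h1 h2 u).sub continuous_const).sub (h.cont2 W h1 h2 γ)).add continuous_const
    have h3 := (this.tendsto γ).mono_left h𝒱
    have e : D W u γ = 0 := by simp only [D]; ring
    rwa [e] at h3
  have main : ∀ η : ℝ, 0 < η → ‖c‖ ≤ 6 * η := by
    intro η hη
    obtain ⟨f, hP, hr⟩ := exists_seq_of_forall_finset_exists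
      (fun x : Set Ω × Set Ω × Ω × Ω => IsClopen x.1 ∧ q ∉ x.1 ∧ IsClopen x.2.1 ∧ γ ∈ x.2.1 ∧
        x.2.1 ⊆ x.1 ∧ ‖g x.2.2.2 - c‖ ≤ η)
      (fun x y => y.1 ⊆ x.2.1 ∧ ‖D x.1 x.2.2.1 y.2.2.2 - 0‖ ≤ η ∧
        ‖D x.2.1 x.2.2.1 y.2.2.2 - 0‖ ≤ η ∧ ‖D y.1 y.2.2.1 x.2.2.2 - 0‖ ≤ η ∧
        ‖E y.2.2.1 x.2.2.2 - g x.2.2.2‖ ≤ η ∧
        ‖D y.2.1 y.2.2.1 x.2.2.2 - E y.2.2.1 x.2.2.2‖ ≤ η) (by
      intro s hs
      have e1 : (⋂ x ∈ s, x.2.1) ∈ 𝓝 γ := (biInter_finset_mem s).2 fun x hx =>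
        (hs x hx).2.2.1.isOpen.mem_nhds (hs x hx).2.2.2.1
      obtain ⟨W, w1, w2, w3, w4⟩ := (I2_ev (h𝒜 γ) hγq e1).exists
      obtain ⟨u, hu⟩ := ((eventually_all_finset s).2 fun x _ =>
        (I2_near (hD1 W w1 w4 x.2.2.2) hη).and (I2_near (hEg x.2.2.2) hη)).exists
      obtain ⟨W', ⟨w1', w2', w3', -⟩, hW'⟩ := ((I2_ev (h𝒜 γ) hγq (w1.isOpen.mem_nhds w2)).and
        ((eventually_all_finset s).2 fun x _ => I2_near (hDE u x.2.2.2) hη)).exists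
      obtain ⟨v, hv, hv'⟩ := ((I2_near hgc hη).and ((eventually_all_finset s).2 fun x hx =>
        (I2_near (hD2 x.1 (hs x hx).1 (hs x hx).2.1 x.2.2.1) hη).and
        (I2_near (hD2 x.2.1 (hs x hx).2.2.1 (fun e => (hs x hx).2.1 ((hs x hx).2.2.2.2.1 e))
          x.2.2.1) hη))).exists
      exact ⟨(W, W', u, v), ⟨w1, w4, w1', w2', w3', hv⟩, fun x hx =>
        ⟨w3.trans (biInter_subset_of_mem hx), (hv' x hx).1, (hv' x hx).2, (hu x hx).1,
          (hu x hx).2, hW' x hx⟩⟩)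
    let O : ℕ → Set Ω := fun a => (f a).1 \ (f a).2.1
    have hO : ∀ a, IsClopen (O a) ∧ q ∉ O a := fun a =>
      ⟨(hP a).1.diff (hP a).2.2.1, fun e => (hP a).2.1 e.1⟩
    have hlt : ∀ a b, a < b → Disjoint (O a) (O b) := fun a b hab =>
      disjoint_sdiff_left.mono_right (sdiff_subset.trans (hr a b hab).1)
    have hd : Pairwise fun a b => Disjoint (O a) (O b) := fun a b hab => by
      rcases lt_or_gt_of_ne hab with h | h
      · exact hlt a b h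
      · exact (hlt b a h).symm
    have hT : G2 (fun a b => D (O a) (f a).2.2.1 (f b).2.2.2) (C + C + C + C) :=
      (((h.g2_row O hO hd _ _).sub (h.g2_row O hO hd _ fun _ => γ)).sub
        (h.g2_row O hO hd (fun _ => γ) _)).add (h.g2_row O hO hd (fun _ => γ) fun _ => γ)
    have hDO : ∀ a u v, D (O a) u v = D (f a).1 u v - D (f a).2.1 u v := fun a u v => by
      simp only [D, O, h.diff (hP a).1 (hP a).2.2.1 (hP a).2.1 (hP a).2.2.2.2.1]
      ring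
    have := (hT.comp (fun i => 2 * i + 1) fun j => 2 * j).triangular (ε := 2 * η) (ε' := 4 * η)
      (c := -c) (fun i j hij => by
        obtain ⟨-, r1, r2, -⟩ := hr (2 * i + 1) (2 * j) (by omega)
        rw [sub_zero] at r1 r2
        rw [hDO]
        exact (norm_sub_le _ _).trans (by linarith)) (fun i j hij => by
        obtain ⟨-, -, -, r1, r2, r3⟩ := hr (2 * j) (2 * i + 1) (by omega)
        have r4 := (hP (2 * j)).2.2.2.2.2
        rw [hDO]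
        have e : ∀ a b c d e : ℂ, a - b - -e = (a - 0) - (b - c) - (c - d) - (d - e) := by
          intros; ring
        rw [e _ _ (E (f (2 * i + 1)).2.2.1 (f (2 * j)).2.2.2) (g (f (2 * j)).2.2.2)]
        refine (norm_sub_le _ _).trans ?_
        have := norm_sub_le (D (f (2 * i + 1)).1 (f (2 * i + 1)).2.2.1 (f (2 * j)).2.2.2 - 0 -
          (D (f (2 * i + 1)).2.1 (f (2 * i + 1)).2.2.1 (f (2 * j)).2.2.2 -
            E (f (2 * i + 1)).2.2.1 (f (2 * j)).2.2.2))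
          (E (f (2 * i + 1)).2.2.1 (f (2 * j)).2.2.2 - g (f (2 * j)).2.2.2)
        have := norm_sub_le (D (f (2 * i + 1)).1 (f (2 * i + 1)).2.2.1 (f (2 * j)).2.2.2 - 0)
          (D (f (2 * i + 1)).2.1 (f (2 * i + 1)).2.2.1 (f (2 * j)).2.2.2 -
            E (f (2 * i + 1)).2.2.1 (f (2 * j)).2.2.2)
        linarith)
    rw [norm_neg] at this
    linarith
  have hc : c = 0 := by
    rw [← norm_le_zero_iff]
    refine le_of_forall_pos_le_add fun ε hε => ?_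
    have := main (ε / 6) (by positivity)
    linarith
  simp only [c] at hc
  linear_combination -hc

theorem PhiData.atom_infty {q : Ω} {φ : Set Ω → Ω → Ω → ℂ} {C : ℝ} (h : PhiData q φ C)
    {𝒜 : Ω → Ultrafilter (Set Ω)} (h𝒜 : ∀ γ, ↑(𝒜 γ) ≤ cnb γ) {Γ : Set Ω} (hq : q ∉ Γ)
    (hΓ : ∀ O, IsClopen O → q ∉ O → (Γ ∩ O).Finite)
    {N : Ω → Ω → Ω → ℂ} (hN : IsAtom φ 𝒜 Γ N) (𝒲 : Ultrafilter Ω) (h𝒲 : ↑𝒲 ≤ 𝓝 q)
    (uu : Ω → Ω) {δ : ℝ} (hδ : 0 < δ) :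
    {γ | γ ∈ Γ ∧ ∀ᶠ v in (𝒲 : Filter Ω), δ ≤ ‖N γ (uu γ) v‖}.Finite := by
  classical
  by_contra hinf
  let e := Set.Infinite.natEmbedding _ hinf
  let g : ℕ → Ω := fun a => (e a).1
  have hgi : Function.Injective g := fun a b hab => e.injective (Subtype.ext hab)
  have hg : ∀ a, g a ∈ Γ := fun a => (e a).2.1
  have hgq : ∀ a, g a ≠ q := fun a he => hq (he ▸ hg a)
  have hc : ∀ a, ∃ c, Tendsto (fun v => N (g a) (uu (g a)) v) 𝒲 (𝓝 c) := fun a =>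
    exists_ulim 𝒲 _ (B := C) (Eventually.of_forall fun v =>
      ((h.atom_g2 h𝒜 hq hN).1 _ (hg a)).norm_le _ v)
  choose c hc using hc
  have hcδ : ∀ a, δ ≤ ‖c a‖ := fun a => ge_of_tendsto (hc a).norm (e a).2.2
  have hB : ∀ a, ∃ B, IsClopen B ∧ g a ∈ B ∧ q ∉ B ∧ ∀ b, b ≠ a → g b ∉ B := by
    intro a
    obtain ⟨O, o1, o2, -, o4⟩ := (I2_ev (h𝒜 (g a)) (hgq a) univ_mem).exists
    have hf : ((Γ ∩ O) \ {g a}).Finite := (hΓ O o1 o4).sdiff
    obtain ⟨B, b1, b2, b3, b4⟩ := (I2_ev (h𝒜 (g a)) (hgq a) (inter_mem (o1.isOpen.mem_nhds o2)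
      (hf.isClosed.isOpen_compl.mem_nhds (fun h => h.2 rfl)))).exists
    exact ⟨B, b1, b2, b4, fun b hb hm => (b3 hm).2 ⟨⟨hg b, (b3 hm).1⟩, fun h => hb (hgi h)⟩⟩
  choose B' b1 b2 b3 b4 using hB
  let B : ℕ → Set Ω := fun a => B' a \ ⋃ b ∈ Finset.range a, B' b
  have B1 : ∀ a, IsClopen (B a) := fun a =>
    (b1 a).diff (isClopen_biUnion_finset fun b _ => b1 b)
  have B2 : ∀ a, g a ∈ B a := fun a => ⟨b2 a, by
    simp only [mem_iUnion, not_exists]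
    intro b hb
    exact b4 b a (Finset.mem_range.1 hb).ne'⟩
  have B3 : ∀ a, q ∉ B a := fun a hx => b3 a hx.1
  have B4 : ∀ a b, a < b → Disjoint (B a) (B b) := fun a b hab =>
    disjoint_left.2 fun x hx hx' => hx'.2 (mem_biUnion (Finset.mem_range.2 hab) hx.1)
  have B5 : ∀ a b, a ≠ b → Disjoint (B a) (B b) := fun a b hab => by
    rcases lt_or_gt_of_ne hab with h | h
    · exact B4 a b h
    · exact (B4 b a h).symm
  have hη : 0 < δ / 6 := by positivity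
  obtain ⟨f, hP, hr⟩ := exists_seq_of_forall_finset_exists
    (fun x : ℕ × Ω × (ℕ → Set Ω) × (ℕ → Set Ω) => ∀ a, IsClopen (x.2.2.1 a) ∧
      IsClopen (x.2.2.2 a) ∧ g a ∈ x.2.2.2 a ∧ x.2.2.2 a ⊆ x.2.2.1 a ∧ x.2.2.1 a ⊆ B a ∧
      (a ≤ x.1 → ‖φ (x.2.2.1 a \ x.2.2.2 a) (uu (g a)) x.2.1 + c a‖ ≤ δ / 2) ∧
      (x.1 < a → x.2.2.2 a = x.2.2.1 a))
    (fun x y => x.1 < y.1 ∧ ∀ a, y.2.2.1 a ⊆ x.2.2.2 a) (by
    intro s hs
    let b : ℕ := s.sup Prod.fst + 1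
    let W : ℕ → Set Ω := fun a => B a ∩ ⋂ x ∈ s, x.2.2.2 a
    have w1 : ∀ a, IsClopen (W a) := fun a =>
      (B1 a).inter (isClopen_biInter_finset fun x hx => (hs x hx a).2.1)
    have w2 : ∀ a, g a ∈ W a := fun a => ⟨B2 a, mem_iInter₂.2 fun x hx => (hs x hx a).2.2.1⟩
    have w3 : ∀ a, q ∉ W a := fun a hx => B3 a hx.1
    have w4 : ∀ a, Tendsto (fun v => φ (W a) (uu (g a)) v) 𝒲 (𝓝 0) := fun a => by
      have := ((h.cont2 _ (w1 a) (w3 a) (uu (g a))).tendsto q).mono_left h𝒲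
      rwa [h.van2 _ (w1 a) (w3 a)] at this
    obtain ⟨v, hv⟩ := ((eventually_all_finset (Finset.range (b + 1))).2 fun a _ =>
      (I2_near (w4 a) hη).and (I2_near (hc a) hη)).exists
    have hW' : ∀ a, ∃ W', IsClopen W' ∧ g a ∈ W' ∧ W' ⊆ W a ∧
        (a ≤ b → ‖φ (W a \ W') (uu (g a)) v + c a‖ ≤ δ / 2) ∧ (b < a → W' = W a) := by
      intro a
      by_cases hab : a ≤ b
      · obtain ⟨W', ⟨k1, k2, k3, -⟩, k4⟩ := ((I2_ev (h𝒜 (g a)) (hgq a)
          ((w1 a).isOpen.mem_nhds (w2 a))).and (I2_near (hN _ (hg a) (uu (g a)) v) hη)).exists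
        refine ⟨W', k1, k2, k3, fun _ => ?_, fun h => absurd hab h.not_ge⟩
        obtain ⟨k5, k6⟩ := hv a (Finset.mem_range.2 (by omega))
        rw [h.diff (w1 a) k1 (w3 a) k3]
        have e : ∀ a b c d : ℂ, a - b + d = (a - 0) - (b - c) - (c - d) := by intros; ring
        rw [e _ _ (N (g a) (uu (g a)) v)]
        have := norm_sub_le (φ (W a) (uu (g a)) v - 0) (φ W' (uu (g a)) v - N (g a) (uu (g a)) v)
        exact (norm_sub_le _ _).trans (by linarith)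
      · exact ⟨W a, w1 a, w2 a, Subset.rfl, fun h => absurd h hab, fun _ => rfl⟩
    choose W' k1 k2 k3 k4 k5 using hW'
    refine ⟨(b, v, W, W'), fun a => ⟨w1 a, k1 a, k2 a, k3 a, inter_subset_left, k4 a, k5 a⟩,
      fun x hx => ⟨Nat.lt_succ_of_le (Finset.le_sup (f := Prod.fst) hx), fun a => ?_⟩⟩
    exact inter_subset_right.trans (biInter_subset_of_mem (t := fun x => x.2.2.2 a) hx))
  let O : ℕ × ℕ → Set Ω := fun p => (f p.2).2.2.1 p.1 \ (f p.2).2.2.2 p.1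
  have hOB : ∀ p, O p ⊆ B p.1 := fun p => sdiff_subset.trans (hP p.2 p.1).2.2.2.2.1
  have hO : ∀ p, IsClopen (O p) ∧ q ∉ O p := fun p =>
    ⟨(hP p.2 p.1).1.diff (hP p.2 p.1).2.1, fun hx => B3 _ (hOB p hx)⟩
  have hlt : ∀ a k k', k < k' → Disjoint (O (a, k)) (O (a, k')) := fun a k k' hk =>
    disjoint_sdiff_left.mono_right (sdiff_subset.trans ((hr k k' hk).2 a))
  have hd : Pairwise fun p p' => Disjoint (O p) (O p') := by
    rintro ⟨a, k⟩ ⟨a', k'⟩ hne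
    by_cases ha : a = a'
    · subst ha
      rcases lt_or_gt_of_ne (show k ≠ k' from fun e => hne (by rw [e])) with h | h
      · exact hlt a k k' h
      · exact (hlt a k' k h).symm
    · exact (B5 a a' ha).mono (hOB _) (hOB _)
  have hT := (I2_swap (h.g2_lab O hO hd (fun j => (f j).1) id (fun j => uu (g (f j).1))
    fun i => (f i).2.1)).mul_col (fun j => -(c (f j).1)⁻¹) (inv_pos.2 hδ).le fun j => by
      rw [norm_neg, norm_inv]
      exact inv_anti₀ hδ (hcδ _)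
  have := hT.triangular (ε := 0) (ε' := 1 / 2) (c := 1) (fun i j hij => by
      simp only [O, id, (hP i (f j).1).2.2.2.2.2.2 (hr i j hij).1, sdiff_self, h.empty]
      simp) (fun i j hij => by
      have hle : (f j).1 ≤ (f i).1 := by
        rcases hij.eq_or_lt with rfl | h
        · exact le_rfl
        · exact (hr j i h).1.le
      have h1 := (hP i (f j).1).2.2.2.2.2.1 hle
      have h2 := hcδ (f j).1
      have h3 : c (f j).1 ≠ 0 := norm_pos_iff.1 (hδ.trans_le h2)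
      have e : ∀ a b : ℂ, b ≠ 0 → -b⁻¹ * a - 1 = -(b⁻¹ * (a + b)) := by
        intro a b hb; field_simp; ring
      simp only [O, id]
      rw [e _ _ h3, norm_neg, norm_mul, norm_inv]
      calc _ ≤ δ⁻¹ * (δ / 2) := mul_le_mul (inv_anti₀ hδ h2) h1 (norm_nonneg _) (by positivity)
        _ = 1 / 2 := by field_simp)
  rw [norm_one] at this
  linarith

end Pool.Agent.MP_75da70_an.H8
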